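import Mathlib
import Pool.Agent.Helper67.BN.Tools

/-! Parametrized version of `Pool/Agent/Helper67/BN/Seqs.lean`: the two bounds are
`2 ^ f n` (large) and `2 ^ g n` (small), where `f`, `g` come from the class `Par`. -/

set_option autoImplicit false

namespace Pool.Agent.J6H20.BNG

open Pool.Agent.Helper67.BN

/-- the parameters: exponents of the two bounds -/
class Par where
  f : ℕ → ℕ
  g : ℕ → ℕ
  f_mono : StrictMono f
  g_mono : Monotone g
  f_comp : ComputableIn ∅ f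
  g_comp : ComputableIn ∅ g
  grow : ∀ c, ∃ n, c * (g (c * n) + 1) ≤ f n

theorem ci_search {O : Set (ℕ →. ℕ)} {q : ℕ → ℕ → Bool} (hq : ComputableIn₂ O q)
    (H : ∀ a, ∃ n, q a n = true) : ∃ F : ℕ → ℕ, ComputableIn O F ∧ ∀ a, q a (F a) = true := by
  classical
  have h1 : ComputableIn O fun n : ℕ => 1 - ind (q (Nat.unpair n).1 (Nat.unpair n).2) := by
    refine csub (cconst 1) (cind ?_)
    exact ci_comp (f := fun p : ℕ × ℕ => q p.1 p.2) hq
      (ci_pair (cunl (f := fun n : ℕ => n) ComputableIn.id)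
        (cunr (f := fun n : ℕ => n) ComputableIn.id))
  have h2 : Nat.RecursiveIn O
      (fun n : ℕ => (Part.some (1 - ind (q (Nat.unpair n).1 (Nat.unpair n).2)) : Part ℕ)) :=
    RecursiveIn.iff_nat.1 h1
  have h3 := Nat.RecursiveIn.rfind h2
  refine ⟨fun a => Nat.find (H a), RecursiveIn.iff_nat.2 (h3.of_eq fun k => ?_),
    fun a => Nat.find_spec (H a)⟩
  refine Part.eq_some_iff.2 (Nat.mem_rfind.2 ⟨?_, ?_⟩)
  · have h4 := Nat.find_spec (H k)
    simp [h4, ind]
  · intro m hm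
    have h4 := Nat.find_min (H k) hm
    simp only [Bool.not_eq_true] at h4
    simp [h4, ind]

theorem exists_search {α : Type} [Primcodable α] {q : α → ℕ → Bool} (hq : ComputableIn₂ ∅ q)
    (H : ∀ a, ∃ n, q a n = true) : ∃ F : α → ℕ, ComputableIn ∅ F ∧ ∀ a, q a (F a) = true := by
  classical
  have hq' : Computable₂ q := computable_of_ci hq
  have hP : ComputablePred (fun p : α × ℕ => q p.1 p.2 = true) :=
    Computable.computablePred (by
      have : Computable fun p : α × ℕ => q p.1 p.2 := hq'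
      simpa using this)
  exact ⟨_, (Computable.find (P := fun a n => q a n = true) hP H).computableIn,
    fun a => Nat.find_spec (H a)⟩

theorem ci_of {α σ : Type} [Primcodable α] [Primcodable σ] {O : Set (ℕ →. ℕ)} {f : α → σ}
    (h : ComputableIn ∅ f) : ComputableIn O f := (computable_of_ci h).computableIn

section
variable [Par]

/-- exponent of the number of colours: `2 ^ g m + 1 ≤ 2 ^ LL W` for `m ≤ W` -/
def LL (W : ℕ) : ℕ := Par.g W + 1

theorem LL_pos (W : ℕ) : 1 ≤ LL W := Nat.le_add_left _ _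

theorem LL_mono {a b : ℕ} (h : a ≤ b) : LL a ≤ LL b := Nat.add_le_add_right (Par.g_mono h) 1

theorem cfF {α : Type} [Primcodable α] {O : Set (ℕ →. ℕ)} {h : α → ℕ} (hh : ComputableIn O h) :
    ComputableIn O fun a => Par.f (h a) :=
  ci_comp (f := Par.f) (g := h) (ci_of Par.f_comp) hh

theorem cLL {α : Type} [Primcodable α] {O : Set (ℕ →. ℕ)} {h : α → ℕ} (hh : ComputableIn O h) :
    ComputableIn O fun a => LL (h a) :=
  cadd (ci_comp (f := Par.g) (g := h) (ci_of Par.g_comp) hh) (cconst 1)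

/-- the test for the end of the next block; the argument is `(k, b, G, W)` -/
def tst (q : ℕ × ℕ × ℕ × ℕ) (b : ℕ) : Bool :=
  decide (q.2.1 < b) &&
    decide ((q.1 + 1) * LL (q.2.2.2 + (2 * q.2.2.1 * 2 ^ (q.1 * LL q.2.2.2)) * b) + 2 ≤ Par.f b)

theorem ctst : ComputableIn₂ ∅ tst := by
  have hk : ComputableIn ∅ fun a : (ℕ × ℕ × ℕ × ℕ) × ℕ => a.1.1 := ci_comp ci_fst ci_fst
  have hb : ComputableIn ∅ fun a : (ℕ × ℕ × ℕ × ℕ) × ℕ => a.1.2.1 :=
    ci_comp ci_fst (ci_comp ci_snd ci_fst)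
  have hG : ComputableIn ∅ fun a : (ℕ × ℕ × ℕ × ℕ) × ℕ => a.1.2.2.1 :=
    ci_comp ci_fst (ci_comp ci_snd (ci_comp ci_snd ci_fst))
  have hW : ComputableIn ∅ fun a : (ℕ × ℕ × ℕ × ℕ) × ℕ => a.1.2.2.2 :=
    ci_comp ci_snd (ci_comp ci_snd (ci_comp ci_snd ci_fst))
  have hn : ComputableIn ∅ fun a : (ℕ × ℕ × ℕ × ℕ) × ℕ => a.2 := ci_snd
  refine cand (clt hb hn) (cle ?_ (cfF hn))
  refine cadd (cmul (cadd hk (cconst 1)) (cLL (cadd hW (cmul ?_ hn)))) (cconst 2)
  exact cmul (cmul (cconst 2) hG) (cpw 2 (cmul hk (cLL hW)))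

theorem tst_iff (q : ℕ × ℕ × ℕ × ℕ) (b : ℕ) : tst q b = true ↔ q.2.1 < b ∧
    (q.1 + 1) * LL (q.2.2.2 + (2 * q.2.2.1 * 2 ^ (q.1 * LL q.2.2.2)) * b) + 2 ≤ Par.f b := by
  unfold tst
  rw [Bool.and_eq_true, decide_eq_true_eq, decide_eq_true_eq]

theorem exists_tst (q : ℕ × ℕ × ℕ × ℕ) : ∃ b, tst q b = true := by
  obtain ⟨k, b0, G, W⟩ := q
  obtain ⟨c, hc⟩ : ∃ c, c = 2 * G * 2 ^ (k * LL W) := ⟨_, rfl⟩
  obtain ⟨n, hn⟩ := Par.grow (k + 3 + c + W + Par.f b0 + 1)
  refine ⟨n, (tst_iff _ _).2 ?_⟩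
  simp only
  rw [← hc]
  set C := k + 3 + c + W + Par.f b0 + 1 with hC
  have h1 : b0 < n := by
    by_contra hcon
    have h2 : Par.f n ≤ Par.f b0 := Par.f_mono.monotone (not_lt.1 hcon)
    have h3 : C ≤ C * (Par.g (C * n) + 1) := Nat.le_mul_of_pos_right _ (Nat.succ_pos _)
    omega
  refine ⟨h1, le_trans ?_ hn⟩
  have h2 : W + c * n ≤ C * n := by
    have h3 : W ≤ W * n := Nat.le_mul_of_pos_right _ (by omega)
    calc W + c * n ≤ W * n + c * n := by omega
      _ = (W + c) * n := by ring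
      _ ≤ C * n := Nat.mul_le_mul_right _ (by omega)
  have h3 : LL (W + c * n) ≤ Par.g (C * n) + 1 := LL_mono h2
  have h4 : 1 ≤ Par.g (C * n) + 1 := Nat.le_add_left _ _
  calc (k + 1) * LL (W + c * n) + 2
      ≤ (k + 1) * (Par.g (C * n) + 1) + 2 * (Par.g (C * n) + 1) := by
        have := Nat.mul_le_mul_left (k + 1) h3
        omega
    _ = (k + 3) * (Par.g (C * n) + 1) := by ring
    _ ≤ C * (Par.g (C * n) + 1) := Nat.mul_le_mul_right _ (by omega)

theorem exists_nb : ∃ F : ℕ × ℕ × ℕ × ℕ → ℕ, ComputableIn ∅ F ∧ ∀ a, tst a (F a) = true :=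
  exists_search ctst exists_tst

/-- the end of the next block -/
noncomputable def nb : ℕ × ℕ × ℕ × ℕ → ℕ := Classical.choose exists_nb

theorem cnb : ComputableIn ∅ nb := (Classical.choose_spec exists_nb).1

theorem nb_spec (q : ℕ × ℕ × ℕ × ℕ) : tst q (nb q) = true := (Classical.choose_spec exists_nb).2 q

/-- one step of the recursion for `(b, G, W)` -/
noncomputable def stp (k : ℕ) (p : ℕ × ℕ × ℕ) : ℕ × ℕ × ℕ :=
  (nb (k, p), p.2.1 * (2 * nb (k, p) * 2 ^ (k * LL p.2.2)),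
   p.2.2 + p.2.1 * (2 * nb (k, p) * 2 ^ (k * LL p.2.2)))

noncomputable def st (k : ℕ) : ℕ × ℕ × ℕ :=
  Nat.rec (motive := fun _ => ℕ × ℕ × ℕ) (2, 1, 1) (fun k p => stp k p) k

/-- end of the `k`-th block -/
noncomputable def bb (k : ℕ) : ℕ := (st k).1
/-- number of nodes of level `k` -/
noncomputable def GG (k : ℕ) : ℕ := (st k).2.1
/-- number of nodes of level `≤ k` -/
noncomputable def WW (k : ℕ) : ℕ := (st k).2.2
/-- number of successors of a node of level `k` -/
noncomputable def NN (k : ℕ) : ℕ := 2 * bb (k + 1) * 2 ^ (k * LL (WW k))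
/-- bound for the number of successors hit by one function -/
noncomputable def HH (k : ℕ) : ℕ := bb (k + 1) + 2 * (NN k / 2 ^ Par.f (bb k))

theorem bb_zero : bb 0 = 2 := rfl
theorem GG_zero : GG 0 = 1 := rfl
theorem WW_zero : WW 0 = 1 := rfl

theorem bb_spec (k : ℕ) : bb k < bb (k + 1) ∧
    (k + 1) * LL (WW k + (2 * GG k * 2 ^ (k * LL (WW k))) * bb (k + 1)) + 2
      ≤ Par.f (bb (k + 1)) :=
  (tst_iff _ _).1 (nb_spec (k, st k))

theorem GG_succ (k : ℕ) : GG (k + 1) = GG k * NN k := rfl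

theorem WW_succ (k : ℕ) : WW (k + 1) = WW k + GG (k + 1) := rfl

theorem bb_lt_succ (k : ℕ) : bb k < bb (k + 1) := (bb_spec k).1

theorem bb_pos (k : ℕ) : 0 < bb k := by
  cases k with
  | zero => simp [bb_zero]
  | succ k => have := bb_lt_succ k; omega

theorem GG_pos (k : ℕ) : 0 < GG k := by
  induction k with
  | zero => simp [GG_zero]
  | succ k ih =>
    rw [GG_succ]
    refine Nat.mul_pos ih ?_
    unfold NN
    have := bb_pos (k + 1)
    positivity

theorem NN_pos (k : ℕ) : 0 < NN k := by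
  unfold NN
  have := bb_pos (k + 1)
  positivity

theorem HH_pos (k : ℕ) : 0 < HH k := by
  unfold HH
  have := bb_pos (k + 1)
  omega

theorem WW_succ' (k : ℕ) :
    WW (k + 1) = WW k + (2 * GG k * 2 ^ (k * LL (WW k))) * bb (k + 1) := by
  rw [WW_succ, GG_succ]
  unfold NN
  ring

theorem add_le_f (b t : ℕ) : Par.f b + t ≤ Par.f (b + t) := by
  induction t with
  | zero => simp
  | succ t ih =>
    have h1 : Par.f (b + t) < Par.f (b + (t + 1)) := Par.f_mono (by omega)
    omega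

theorem fact_bound (k : ℕ) : k * LL (WW k) + 2 ≤ Par.f (bb k) := by
  cases k with
  | zero =>
    have := add_le_f 0 2
    rw [bb_zero]
    simp only [Nat.zero_add, Nat.zero_mul] at this ⊢
    omega
  | succ k =>
    rw [WW_succ']
    exact (bb_spec k).2

theorem HH_mul_le (k : ℕ) : HH k * 2 ^ (k * LL (WW k)) ≤ NN k := by
  have h1 := fact_bound k
  set e := k * LL (WW k) with he
  have hN : NN k = 2 * bb (k + 1) * 2 ^ e := rfl
  have h2 : 2 * (NN k / 2 ^ Par.f (bb k)) * 2 ^ e ≤ bb (k + 1) * 2 ^ e := by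
    have h3 : NN k / 2 ^ Par.f (bb k) ≤ NN k / 2 ^ (e + 2) :=
      Nat.div_le_div_left (Nat.pow_le_pow_right (by norm_num) h1) (by positivity)
    have h4 : NN k / 2 ^ (e + 2) * 2 ^ (e + 2) ≤ NN k := Nat.div_mul_le_self _ _
    have h5 : 4 * (NN k / 2 ^ (e + 2) * 2 ^ e) ≤ 2 * bb (k + 1) * 2 ^ e := by
      rw [← hN]
      calc 4 * (NN k / 2 ^ (e + 2) * 2 ^ e) = NN k / 2 ^ (e + 2) * 2 ^ (e + 2) := by
            rw [pow_add]; ring
        _ ≤ NN k := h4
    have h6 : NN k / 2 ^ Par.f (bb k) * 2 ^ e ≤ NN k / 2 ^ (e + 2) * 2 ^ e :=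
      Nat.mul_le_mul_right _ h3
    nlinarith
  calc HH k * 2 ^ e = bb (k + 1) * 2 ^ e + 2 * (NN k / 2 ^ Par.f (bb k)) * 2 ^ e := by
        unfold HH; ring
    _ ≤ bb (k + 1) * 2 ^ e + bb (k + 1) * 2 ^ e := by gcongr
    _ = NN k := by rw [hN]; ring

theorem bb_strictMono : StrictMono bb := strictMono_nat_of_lt_succ bb_lt_succ

theorem WW_lt_succ (k : ℕ) : WW k < WW (k + 1) := by
  rw [WW_succ]
  have := GG_pos (k + 1)
  omega

theorem WW_strictMono : StrictMono WW := strictMono_nat_of_lt_succ WW_lt_succ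

theorem lt_WW (k : ℕ) : k < WW k := by
  induction k with
  | zero => simp [WW_zero]
  | succ k ih => have := WW_lt_succ k; omega

/-! ### Computability -/

theorem cst {O : Set (ℕ →. ℕ)} : ComputableIn O st := by
  have hpow : ComputableIn₂ O fun (_ : ℕ) (q : ℕ × ℕ × ℕ × ℕ) => stp q.1 q.2 := by
    have hq : ComputableIn O fun a : ℕ × ℕ × ℕ × ℕ × ℕ => a.2 := ci_snd
    have hk : ComputableIn O fun a : ℕ × ℕ × ℕ × ℕ × ℕ => a.2.1 := ci_comp ci_fst ci_snd
    have hG : ComputableIn O fun a : ℕ × ℕ × ℕ × ℕ × ℕ => a.2.2.2.1 :=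
      ci_comp ci_fst (ci_comp ci_snd (ci_comp ci_snd ci_snd))
    have hW : ComputableIn O fun a : ℕ × ℕ × ℕ × ℕ × ℕ => a.2.2.2.2 :=
      ci_comp ci_snd (ci_comp ci_snd (ci_comp ci_snd ci_snd))
    have hQ := cpw 2 (cmul hk (cLL hW))
    have hb : ComputableIn O fun a : ℕ × ℕ × ℕ × ℕ × ℕ => nb (a.2.1, a.2.2) :=
      ci_comp (f := nb) (g := fun a : ℕ × ℕ × ℕ × ℕ × ℕ => a.2) (ci_of cnb) hq
    have hN := cmul hG (cmul (cmul (cconst 2) hb) hQ)
    exact ci_pair hb (ci_pair hN (cadd hW hN))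
  exact ci_nat_rec (f := fun k : ℕ => k) (g := fun _ => ((2, 1, 1) : ℕ × ℕ × ℕ))
    (h := fun _ q => stp q.1 q.2) ComputableIn.id (cconst _) hpow

end

section
variable {α : Type} [Primcodable α] {O : Set (ℕ →. ℕ)} [Par]

theorem cbb {f : α → ℕ} (hf : ComputableIn O f) : ComputableIn O fun a => bb (f a) :=
  ci_comp (f := fun p : ℕ × ℕ × ℕ => p.1) (g := fun a => st (f a)) ci_fst
    (ci_comp (f := st) (g := f) cst hf)

theorem cGG {f : α → ℕ} (hf : ComputableIn O f) : ComputableIn O fun a => GG (f a) :=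
  ci_comp (f := fun p : ℕ × ℕ × ℕ => p.2.1) (g := fun a => st (f a)) (ci_comp ci_fst ci_snd)
    (ci_comp (f := st) (g := f) cst hf)

theorem cWW {f : α → ℕ} (hf : ComputableIn O f) : ComputableIn O fun a => WW (f a) :=
  ci_comp (f := fun p : ℕ × ℕ × ℕ => p.2.2) (g := fun a => st (f a)) (ci_comp ci_snd ci_snd)
    (ci_comp (f := st) (g := f) cst hf)

theorem cNN {f : α → ℕ} (hf : ComputableIn O f) : ComputableIn O fun a => NN (f a) :=
  cmul (cmul (cconst 2) (cbb (cadd hf (cconst 1)))) (cpw 2 (cmul hf (cLL (cWW hf))))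

theorem cHH {f : α → ℕ} (hf : ComputableIn O f) : ComputableIn O fun a => HH (f a) :=
  cadd (cbb (cadd hf (cconst 1)))
    (cmul (cconst 2) (cdiv (cNN hf) (cpw 2 (cfF (cbb hf)))))

end

section
variable [Par]

/-! ### Hits -/

/-- The function `x` hits the successor `j` of a node of level `k`. -/
def Hit (x : ℕ → ℕ) (k j : ℕ) : Prop := ∃ i, bb k ≤ i ∧ i < bb (k + 1) ∧ x i = j % 2 ^ Par.f i

omit [Par] in
theorem card_mod_le (N q v : ℕ) :
    ((Finset.range N).filter fun j => v = j % q).card ≤ N / q + 1 := by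
  have h1 : ((Finset.range N).filter fun j => v = j % q) ⊆
      (Finset.range (N / q + 1)).image (fun t => v + q * t) := by
    intro j hj
    simp only [Finset.mem_filter, Finset.mem_range] at hj
    simp only [Finset.mem_image, Finset.mem_range]
    refine ⟨j / q, ?_, ?_⟩
    · have := Nat.div_le_div_right (c := q) hj.1.le
      omega
    · rw [hj.2]; exact Nat.mod_add_div j q
  calc _ ≤ ((Finset.range (N / q + 1)).image (fun t => v + q * t)).card := Finset.card_le_card h1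
    _ ≤ (Finset.range (N / q + 1)).card := Finset.card_image_le
    _ = N / q + 1 := Finset.card_range _

open Classical in
theorem card_hit_le (x : ℕ → ℕ) (k : ℕ) :
    ((Finset.range (NN k)).filter fun j => Hit x k j).card ≤ HH k := by
  set T := bb (k + 1) - bb k with hT
  have hb := bb_lt_succ k
  have h1 : ((Finset.range (NN k)).filter fun j => Hit x k j) ⊆
      (Finset.range T).biUnion (fun t =>
        (Finset.range (NN k)).filter fun j => x (bb k + t) = j % 2 ^ Par.f (bb k + t)) := by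
    intro j hj
    simp only [Finset.mem_filter, Finset.mem_range] at hj
    obtain ⟨hj1, i, hi1, hi2, hi3⟩ := hj
    simp only [Finset.mem_biUnion, Finset.mem_filter, Finset.mem_range]
    refine ⟨i - bb k, by omega, hj1, ?_⟩
    have : bb k + (i - bb k) = i := by omega
    rw [this]; exact hi3
  have hbp := bb_pos k
  calc _ ≤ ((Finset.range T).biUnion (fun t =>
        (Finset.range (NN k)).filter fun j => x (bb k + t) = j % 2 ^ Par.f (bb k + t))).card :=
        Finset.card_le_card h1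
    _ ≤ ∑ t ∈ Finset.range T, ((Finset.range (NN k)).filter fun j =>
          x (bb k + t) = j % 2 ^ Par.f (bb k + t)).card := Finset.card_biUnion_le
    _ ≤ ∑ t ∈ Finset.range T, ((NN k / 2 ^ Par.f (bb k)) / 2 ^ t + 1) := by
        refine Finset.sum_le_sum fun t _ => ?_
        refine (card_mod_le _ _ _).trans ?_
        have h2 : NN k / 2 ^ Par.f (bb k + t) ≤ NN k / 2 ^ (Par.f (bb k) + t) :=
          Nat.div_le_div_left (Nat.pow_le_pow_right (by norm_num) (add_le_f _ _))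
            (by positivity)
        rw [pow_add, ← Nat.div_div_eq_div_mul] at h2
        omega
    _ = ∑ t ∈ Finset.range T, ((NN k / 2 ^ Par.f (bb k)) / 2 ^ t) + T := by
        rw [Finset.sum_add_distrib]; simp
    _ ≤ (NN k / 2 ^ Par.f (bb k)) * 2 / (2 - 1) + T := by
        gcongr
        exact Nat.geom_sum_le (le_refl 2) _ _
    _ ≤ HH k := by
        unfold HH
        have : (NN k / 2 ^ Par.f (bb k)) * 2 / (2 - 1)
          = 2 * (NN k / 2 ^ Par.f (bb k)) := by simp [mul_comm]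
        omega

end

end Pool.Agent.J6H20.BNG
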